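import Pool.Agent.VU.Room.Der
import Pool.Agent.V8.Room.Dec

/-!
# VU, ROOM: independence on the piece `0` gives independence

Variables `ν₀ ⊕ η`, points with the coordinates on `η` equal to `0`; the variable `x : η` is in the
same block as the variable `ζ x : ν₀`.
-/

set_option autoImplicit false
set_option linter.unusedSectionVars false

namespace Pool.Agent.VU

open Finset MvPolynomial Pool.Agent.H51.TB Pool.Agent.H54.V7 Pool.Agent.V7
open Pool.Agent.V8 (pa pb phi ex0 Surj sum_pa_pb tcr_elim tcr_lt msk_phi_inl msk_phi_inr xt xt_coe)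
open Pool.Agent.H18.Ex (tcr)

section

variable {ν₀ η : Type} [Fintype ν₀] [DecidableEq ν₀] [Fintype η] [DecidableEq η]

/-- The exponents of the level `j` with `G` on the second part. -/
def EG (β : ν₀ ⊕ η → ℕ) (d j : ℕ) (G : (η → ℕ) → Prop) [DecidablePred G] :
    Finset (ν₀ ⊕ η → ℕ) :=
  (Ex β d j).filter fun a => G (pb a)

theorem mem_EG {β : ν₀ ⊕ η → ℕ} {d j : ℕ} {G : (η → ℕ) → Prop} [DecidablePred G]
    {a : ν₀ ⊕ η → ℕ} : a ∈ EG β d j G ↔ a ∈ Ex β d j ∧ G (pb a) := by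
  unfold EG
  rw [mem_filter]

variable {β₀ : ν₀ → ℕ} {β : ν₀ ⊕ η → ℕ} {j : ℕ} {ζ : η → ν₀}

theorem mem_EG_iff (hβ : ∀ s, β (Sum.inl s) = β₀ s)
    (hζ : ∀ x, ∀ i < j, β (Sum.inr x) = i ↔ β₀ (ζ x) = i) (d : ℕ) {G : (η → ℕ) → Prop}
    [DecidablePred G] {b₀ : η → ℕ} (hb : G b₀) (e : ν₀ → ℕ) :
    Sum.elim e b₀ ∈ EG β d j G ↔ e + psh ζ b₀ ∈ Ex β₀ d j := by
  rw [mem_EG, mem_Ex, mem_Ex]
  have h1 : ∑ s, (Sum.elim e b₀ : ν₀ ⊕ η → ℕ) s = ∑ s, (e + psh ζ b₀) s := by
    rw [sum_pa_pb]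
    simp only [Pi.add_apply]
    rw [sum_add_distrib, sum_psh]
    rfl
  rw [h1]
  constructor
  · rintro ⟨⟨h2, h3⟩, -⟩
    refine ⟨h2, fun i hi => ?_⟩
    obtain ⟨s, hs, hs'⟩ := h3 i hi
    rcases s with s | x
    · refine ⟨s, by rw [← hβ, hs], ?_⟩
      have h4 : e s ≠ 0 := hs'
      rw [Pi.add_apply]
      omega
    · refine ⟨ζ x, (hζ x i hi).1 hs, ?_⟩
      have h4 : b₀ x ≠ 0 := hs'
      have h5 := le_psh ζ b₀ x
      rw [Pi.add_apply]
      omega
  · rintro ⟨h2, h3⟩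
    refine ⟨⟨h2, fun i hi => ?_⟩, hb⟩
    obtain ⟨s, hs, hs'⟩ := h3 i hi
    by_cases h4 : e s = 0
    · rw [Pi.add_apply, h4, Nat.zero_add] at hs'
      obtain ⟨x, hx, hx'⟩ := exists_of_psh hs'
      exact ⟨Sum.inr x, (hζ x i hi).2 (by rw [hx, hs]), hx'⟩
    · exact ⟨Sum.inl s, by rw [hβ, hs], h4⟩

/-- The Taylor coefficients of a form whose pieces are derivatives. -/
theorem tcr_sum_EG (hβ : ∀ s, β (Sum.inl s) = β₀ s)
    (hζ : ∀ x, ∀ i < j, β (Sum.inr x) = i ↔ β₀ (ζ x) = i) (d : ℕ) {G : (η → ℕ) → Prop}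
    [DecidablePred G] (F : {a // a ∈ EG β d j G} → ℂ) (H : (η → ℕ) → (ν₀ → ℕ) → ℂ)
    (hF : ∀ a : {a // a ∈ EG β d j G}, F a =
      (mch (pa a.1) (psh ζ (pb a.1)) : ℂ) * H (pb a.1) (pa a.1 + psh ζ (pb a.1)))
    (q : ν₀ → ℂ) (b : ν₀ ⊕ η → ℕ) :
    ∑ a : {a // a ∈ EG β d j G}, F a * tcr (Sum.elim q fun _ => (0 : ℂ)) a.1 b =
      if G (pb b) then (mch (pa b) (psh ζ (pb b)) : ℂ) *
        ∑ e : {a // a ∈ Ex β₀ d j}, H (pb b) e.1 * tcr q e.1 (pa b + psh ζ (pb b)) else 0 := by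
  have h1 : ∀ a : {a // a ∈ EG β d j G}, F a * tcr (Sum.elim q fun _ => (0 : ℂ)) a.1 b =
      if pb a.1 = pb b then (mch (pa b) (psh ζ (pb b)) : ℂ) *
        (H (pb b) (pa a.1 + psh ζ (pb b)) *
          tcr q (pa a.1 + psh ζ (pb b)) (pa b + psh ζ (pb b))) else 0 := by
    intro a
    rw [tcr_elim, hF a]
    split_ifs with h2
    · rw [h2]
      have h3 := tcr_psh q (pa a.1) (pa b) (psh ζ (pb b))
      rw [mul_one]
      linear_combination (H (pb b) (pa a.1 + psh ζ (pb b))) * h3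
    · rw [mul_zero, mul_zero]
  rw [sum_congr rfl fun a _ => h1 a]
  split_ifs with hb
  · have h2 := psh_bij (EG β d j G) (Ex β₀ d j) (pb b) (psh ζ (pb b))
      (mem_EG_iff hβ hζ d hb) (fun c => (mch (pa b) (psh ζ (pb b)) : ℂ) *
        (H (pb b) c * tcr q c (pa b + psh ζ (pb b)))) (fun c s hc => by
        rw [tcr_lt (z := s) (by
          rw [Pi.add_apply]
          omega)]
        rw [mul_zero, mul_zero])
    rw [sum_coe_sort (EG β d j G) (fun a => if pb a = pb b then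
      (mch (pa b) (psh ζ (pb b)) : ℂ) *
        (H (pb b) (pa a + psh ζ (pb b)) *
          tcr q (pa a + psh ζ (pb b)) (pa b + psh ζ (pb b))) else 0), h2,
      sum_coe_sort (Ex β₀ d j) (fun e => H (pb b) e * tcr q e (pa b + psh ζ (pb b))), mul_sum]
  · refine sum_eq_zero fun a _ => ?_
    rw [if_neg]
    intro h2
    refine hb ?_
    rw [← h2]
    exact (mem_EG.1 a.2).2

/-- If the forms `H b` satisfy the conditions of a point then the form whose pieces are the derivatives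
of the `H b` satisfies the conditions of the point with the coordinates `0` on the second part. -/
theorem satK_derG (hβ : ∀ s, β (Sum.inl s) = β₀ s)
    (hζ : ∀ x, ∀ i < j, β (Sum.inr x) = i ↔ β₀ (ζ x) = i) (M d : ℕ) {G : (η → ℕ) → Prop}
    [DecidablePred G] (F : {a // a ∈ EG β d j G} → ℂ) (H : (η → ℕ) → (ν₀ → ℕ) → ℂ)
    (hF : ∀ a : {a // a ∈ EG β d j G}, F a =
      (mch (pa a.1) (psh ζ (pb a.1)) : ℂ) * H (pb a.1) (pa a.1 + psh ζ (pb a.1)))
    {k : Kd} (hk : k.Ok M j) (q : ν₀ ⊕ ν₀ → ℂ)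
    (h : ∀ b, SatK M β₀ k q fun e : {a // a ∈ Ex β₀ d j} => H b e.1) :
    SatK M β k (ex0 phi q) F := by
  have hfat : ∀ (μ : ℕ) (I : Finset ℕ),
      (∀ b, Fat (fun e : {a // a ∈ Ex β₀ d j} => e.1) μ (msk β₀ I fun s => q (Sum.inl s))
        fun e => H b e.1) →
      Fat (fun e : {a // a ∈ EG β d j G} => e.1) μ (msk β I fun s => ex0 phi q (Sum.inl s)) F := by
    intro μ I h1 b hb
    rw [msk_phi_inl β₀ β hβ, tcr_sum_EG hβ hζ d F H hF]
    split_ifs
    · rw [h1 (pb b) (pa b + psh ζ (pb b)) (by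
        simp only [Pi.add_apply]
        rw [sum_add_distrib, sum_psh, ← sum_pa_pb]
        exact hb), mul_zero]
    · rfl
  rcases k with ⟨μ, I⟩ | ⟨i, I⟩
  · exact hfat μ I h
  · refine ⟨hfat M (insert i I) fun b => (h b).1, fun a ha h1 h2 => ?_⟩
    have hij : i < j := hk.1
    rw [msk_phi_inl β₀ β hβ, msk_phi_inr β₀ β hβ]
    by_cases hb : G (pb a)
    · have h3 : ∀ b ∈ bxd (ν₀ ⊕ η) (2 * M) M,
          tcr (Sum.elim (msk β₀ I fun s => q (Sum.inr s)) fun _ => (0 : ℂ)) b a *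
            ∑ e : {a // a ∈ EG β d j G}, F e *
              tcr (Sum.elim (msk β₀ (insert i I) fun s => q (Sum.inl s)) fun _ => (0 : ℂ)) e.1 b =
          if pb b = pb a then (mch (pa a) (psh ζ (pb a)) : ℂ) *
            (tcr (msk β₀ I fun s => q (Sum.inr s)) (pa b + psh ζ (pb a))
              (pa a + psh ζ (pb a)) *
            ∑ e : {a // a ∈ Ex β₀ d j}, H (pb a) e.1 *
              tcr (msk β₀ (insert i I) fun s => q (Sum.inl s)) e.1
                (pa b + psh ζ (pb a))) else 0 := by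
        intro b _
        rw [tcr_elim, tcr_sum_EG hβ hζ d F H hF]
        split_ifs with h4 h5 h5
        · rw [h4, mul_one]
          have h6 := tcr_psh (msk β₀ I fun s => q (Sum.inr s)) (pa b) (pa a) (psh ζ (pb a))
          linear_combination (∑ e : {a // a ∈ Ex β₀ d j}, H (pb a) e.1 *
              tcr (msk β₀ (insert i I) fun s => q (Sum.inl s)) e.1
                (pa b + psh ζ (pb a))) * h6
        · rw [h4] at h5
          exact absurd hb h5
        · rw [mul_zero, zero_mul]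
        · rw [mul_zero]
      rw [sum_congr rfl h3, psh_bij (bxd (ν₀ ⊕ η) (2 * M) M) (bxd ν₀ (2 * M) M) (pb a)
        (psh ζ (pb a)) (by
          intro e
          unfold bxd
          rw [mem_filter, mem_filter, mem_bx, mem_bx]
          have h4 : ∑ s, (Sum.elim e (pb a) : ν₀ ⊕ η → ℕ) s =
              ∑ s, (e + psh ζ (pb a)) s := by
            rw [sum_pa_pb]
            simp only [Pi.add_apply]
            rw [sum_add_distrib, sum_psh]
            rfl
          rw [h4]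
          constructor
          · rintro ⟨-, h5⟩
            refine ⟨fun s => ?_, h5⟩
            have h6 := single_le_sum (f := e + psh ζ (pb a)) (fun _ _ => Nat.zero_le _)
              (mem_univ s)
            omega
          · rintro ⟨-, h5⟩
            refine ⟨fun s => ?_, h5⟩
            have h6 := single_le_sum (f := (Sum.elim e (pb a) : ν₀ ⊕ η → ℕ))
              (fun _ _ => Nat.zero_le _) (mem_univ s)
            omega) (fun c => (mch (pa a) (psh ζ (pb a)) : ℂ) *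
            (tcr (msk β₀ I fun s => q (Sum.inr s)) c (pa a + psh ζ (pb a)) *
            ∑ e : {a // a ∈ Ex β₀ d j}, H (pb a) e.1 *
              tcr (msk β₀ (insert i I) fun s => q (Sum.inl s)) e.1 c)) (fun c s hc => by
          rw [tcr_lt (z := s) (by
            rw [Pi.add_apply]
            omega), zero_mul, mul_zero])]
      rw [← mul_sum]
      rw [(h (pb a)).2 (pa a + psh ζ (pb a)) (fun s hs => by
        rw [mem_filter] at hs
        have h4 : pa a s = 0 := ha (Sum.inl s) (by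
          rw [mem_filter]
          exact ⟨mem_univ _, by rw [hβ]; exact hs.2⟩)
        have h5 : psh ζ (pb a) s = 0 := psh_eq_zero fun x hx => ha (Sum.inr x) (by
          rw [mem_filter]
          exact ⟨mem_univ _, (hζ x i hij).2 (by rw [hx]; exact hs.2)⟩)
        rw [Pi.add_apply, h4, h5]) (by
        simp only [Pi.add_apply]
        rw [sum_add_distrib, sum_psh, ← sum_pa_pb]
        exact h1) (by
        simp only [Pi.add_apply]
        rw [sum_add_distrib, sum_psh, ← sum_pa_pb]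
        exact h2), mul_zero]
    · refine sum_eq_zero fun b _ => ?_
      rw [tcr_elim, tcr_sum_EG hβ hζ d F H hF]
      by_cases h4 : pb b = pb a
      · rw [h4, if_neg hb, mul_zero]
      · rw [if_neg h4, mul_zero, zero_mul]

/-- **Independence on the piece `0` gives independence**: derivatives in the variable `ζ x` of the
same block carry independence from the piece `0` to all pieces. -/
theorem surj_EG {β₀ : ν₀ → ℕ} {β : ν₀ ⊕ η → ℕ} {j : ℕ} (ζ : η → ν₀)
    (hβ : ∀ s, β (Sum.inl s) = β₀ s) (hζ : ∀ x, ∀ i < j, β (Sum.inr x) = i ↔ β₀ (ζ x) = i)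
    (M : ℕ) (hM : 1 ≤ M) (G : (η → ℕ) → Prop) [DecidablePred G] {κ : Type} (m : κ → Kd)
    (hm : ∀ i, (m i).Ok M j) (p : κ → ν₀ ⊕ ν₀ → ℂ)
    (h : Surj fun i => (LS M β₀ j).V (fun _ : Unit => m i) fun _ => p i) :
    Surj fun i => (LSA M β (EG β (2 * M - 1) j G)).V (fun _ : Unit => m i) fun _ =>
      ex0 phi (p i) := by
  intro f
  have h1 : ∀ b : η → ℕ, ∃ g : {a // a ∈ Ex β₀ (2 * M - 1) j} → ℂ, ∀ i,
      g - (fun c => xt (f i) (Sum.elim (c.1 - psh ζ b) b) /
        (mch (c.1 - psh ζ b) (psh ζ b) : ℂ)) ∈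
          (LS M β₀ j).V (fun _ : Unit => m i) fun _ => p i := fun b => h _
  choose g hg using h1
  refine ⟨fun a => (mch (pa a.1) (psh ζ (pb a.1)) : ℂ) *
    xt (g (pb a.1)) (pa a.1 + psh ζ (pb a.1)), fun i => ?_⟩
  rw [mem_LSA]
  intro _
  refine satK_derG hβ hζ M (2 * M - 1) _ (fun b c => xt (g b) c -
    xt (f i) (Sum.elim (c - psh ζ b) b) / (mch (c - psh ζ b) (psh ζ b) : ℂ))
    (fun a => ?_) (hm i) (p i) fun b => ?_
  · have h2 : (Sum.elim (pa a.1) (pb a.1) : ν₀ ⊕ η → ℕ) = a.1 := by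
      funext s
      rcases s with s | s <;> rfl
    have h3 := mch_ne_zero (pa a.1) (psh ζ (pb a.1))
    rw [Pi.sub_apply]
    rw [psh_sub_add, h2, xt_coe (f i) a, mul_sub, mul_div_cancel₀ _ h3]
  · have h2 := hg b i
    rw [mem_LSA] at h2
    have h3 := h2 ()
    have h4 : (fun e : {a // a ∈ Ex β₀ (2 * M - 1) j} => xt (g b) e.1 -
        xt (f i) (Sum.elim (e.1 - psh ζ b) b) / (mch (e.1 - psh ζ b) (psh ζ b) : ℂ)) =
        g b - (fun c => xt (f i) (Sum.elim (c.1 - psh ζ b) b) /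
        (mch (c.1 - psh ζ b) (psh ζ b) : ℂ)) := by
      funext e
      rw [Pi.sub_apply, xt_coe]
    rw [h4]
    exact h3

end

end Pool.Agent.VU
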