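import Pool.Agent.VU.Defs
import Pool.Agent.V7.AL.Size

/-!
# VU, ROOM: the number of conditions of one point with coordinates `0` at the bounded variables

The position is `1` at the unbounded variables (the positions `s` with `t ≤ s % c`) and `0` at the
bounded ones.  The space `V` at this position meets the coordinate subspace of the exponents
`v + h` (`v` does not contain bounded variables, `h` satisfies the bounds) only in `0`.
-/

set_option autoImplicit false
set_option linter.unusedSectionVars false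

namespace Pool.Agent.VU

open Finset MvPolynomial Module Pool.Agent.H51.TB Pool.Agent.H54.V7 Pool.Agent.V7
open Pool.Agent.V7.ST (bk mem_bk)
open Pool.Agent.H18.Ex (tcr)

namespace Sz

/-! ### The bounds -/

theorem bd_add {c t : ℕ} {u : ℕ → ℕ} {n : ℕ} {v w : Fin n → ℕ}
    (hv : ∀ s : Fin n, s.1 % c < t → v s = 0) (hw : Bd c t u w) : Bd c t u (v + w) := by
  intro s hs
  rw [Pi.add_apply, hv s hs, Nat.zero_add]
  exact hw s hs

theorem bd_add' {c t : ℕ} {u : ℕ → ℕ} {n : ℕ} {v w : Fin n → ℕ}
    (hv : ∀ s : Fin n, s.1 % c < t → v s = 0) (hw : Bd c t u w) : Bd c t u (w + v) := by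
  rw [add_comm]
  exact bd_add hv hw

theorem bd_zero {c t : ℕ} {u : ℕ → ℕ} {n : ℕ} {v : Fin n → ℕ}
    (hv : ∀ s : Fin n, s.1 % c < t → v s = 0) : Bd c t u v := by
  intro s hs
  rw [hv s hs]
  exact Nat.zero_le _

theorem mod_s0 {c t i : ℕ} (ht : t < c) : ¬ (i * c + t) % c < t := by
  rw [mul_comm, Nat.mul_add_mod, Nat.mod_eq_of_lt ht]
  omega

theorem blk_s0 {c t i n : ℕ} (ht : t < c) (h : i * c + t < n) : blk c n ⟨i * c + t, h⟩ = i := by
  show (i * c + t) / c = i
  rw [mul_comm, Nat.mul_add_div (by omega), Nat.div_eq_of_lt ht, Nat.add_zero]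

/-- Unbounded variables in the blocks. -/
theorem exists_sfU {c t j n : ℕ} (ht : t < c) (hn : j * c + t < n) :
    ∃ sf : ℕ → Fin n, ∀ i < j, blk c n (sf i) = i ∧ ¬ (sf i).1 % c < t := by
  refine ⟨fun i => if h : i * c + t < n then ⟨i * c + t, h⟩ else ⟨j * c + t, hn⟩, fun i hi => ?_⟩
  have h1 : i * c + t < n := by
    have h2 : i * c ≤ j * c := Nat.mul_le_mul_right c hi.le
    omega
  beta_reduce
  rw [dif_pos h1]
  exact ⟨blk_s0 ht h1, mod_s0 ht⟩

/-! ### A criterion at a given position -/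

theorem card_le_at {E ν T : Type} [Fintype E] (S : Sys E ν T) (t : T) {ω : Type} [Fintype ω]
    (ε : ω → E) (hε : Function.Injective ε) (q : ν → ℂ)
    (h : ∀ f ∈ S.V (fun _ : Unit => t) (fun _ => q), (∀ e, (∀ w, ε w ≠ e) → f e = 0) →
      ∀ w, f (ε w) = 0) :
    finrank ℂ (S.V (fun _ : Unit => t) fun _ => q) + Fintype.card ω ≤ Fintype.card E := by
  classical
  have h1 := finrank_add_card_le (S.V (fun _ : Unit => t) fun _ => q) (univ.image ε) (by
    intro f hf h2
    have h3 : ∀ e, (∀ w, ε w ≠ e) → f e = 0 := fun e he =>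
      h2 e fun h4 => by
        obtain ⟨w, -, hw⟩ := mem_image.1 h4
        exact he w hw
    funext e
    by_cases he : ∀ w, ε w ≠ e
    · exact h3 e he
    · push Not at he
      obtain ⟨w, rfl⟩ := he
      exact h f hf h3 w)
  rwa [card_image_of_injective _ hε, card_univ] at h1

/-- `1` at the unbounded variables, `0` at the bounded variables. -/
def one (c t n : ℕ) : Fin n → ℂ := fun s => if s.1 % c < t then 0 else 1

theorem tcr_oneU {c t n : ℕ} {I : Finset ℕ} {u : Fin n → ℕ} (hu : ∀ s, blk c n s ∈ I → u s = 0)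
    (huK : ∀ s : Fin n, s.1 % c < t → u s = 0) :
    tcr (msk (blk c n) I (one c t n)) u 0 = 1 := by
  unfold tcr
  refine prod_eq_one fun s _ => ?_
  unfold msk one
  by_cases h : blk c n s ∈ I
  · rw [hu s h]
    simp
  · rw [if_neg h]
    by_cases h1 : s.1 % c < t
    · rw [if_pos h1, huK s h1]
      simp
    · rw [if_neg h1]
      simp

theorem uu_U {c t j n : ℕ} {sf : ℕ → Fin n}
    (hsf : ∀ i < j, blk c n (sf i) = i ∧ ¬ (sf i).1 % c < t) {J : Finset ℕ} (hJ : J ⊆ range j)
    {s₀ : Fin n} (hs₀ : ¬ s₀.1 % c < t) (r : ℕ) (s : Fin n) (hs : s.1 % c < t) :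
    uu sf J s₀ r s = 0 := by
  by_contra h
  rcases uu_supp h with ⟨i, hi, rfl⟩ | rfl
  · exact (hsf i (mem_range.1 (hJ hi))).2 hs
  · exact hs₀ hs

/-! ### Ordinary points -/

theorem wt_le_ord (ub : ℕ → ℕ) (M c t j n : ℕ) (hj : j < M) (ht : t < c)
    (hn : j * c + t < n) {μ : ℕ} {I : Finset ℕ} (h1 : 1 ≤ μ) (h2 : μ ≤ M) (h3 : I ⊆ range j) :
    finrank ℂ ((LSU c t ub M n j).V (fun _ : Unit => Kd.ord μ I)
      fun _ => Sum.elim (one c t n) fun _ => 0) + wU c t ub n (μ - 1) I ≤
        (ExU c t ub n (2 * M - 1) j).card := by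
  obtain ⟨sf, hsfU⟩ := exists_sfU (c := c) (t := t) (j := j) (n := n) ht hn
  have hsf : ∀ i < j, blk c n (sf i) = i := fun i hi => (hsfU i hi).1
  set s₀ : Fin n := ⟨j * c + t, hn⟩ with hs₀def
  have hs₀b : blk c n s₀ = j := blk_s0 ht hn
  have hs₀K : ¬ s₀.1 % c < t := mod_s0 ht
  have hcardJ : (range j \ I).card = j - I.card := by
    rw [card_sdiff_of_subset h3, card_range]
  have hIl : I.card ≤ j := by
    have := card_le_card h3
    rwa [card_range] at this
  set J : Finset ℕ := range j \ I with hJ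
  set u : Fin n → ℕ := uu sf J s₀ (2 * M - μ - J.card) with hu
  have husum : ∑ s, u s = 2 * M - μ := by
    rw [hu, uu_sum]
    omega
  have hu0 : ∀ s, blk c n s ∈ I → u s = 0 := by
    intro s hs
    by_contra h
    rcases uu_supp h with ⟨i, hi, rfl⟩ | rfl
    · rw [hJ, mem_sdiff, mem_range] at hi
      rw [hsf i hi.1] at hs
      exact hi.2 hs
    · rw [hs₀b] at hs
      have := mem_range.1 (h3 hs)
      omega
  have huK : ∀ s : Fin n, s.1 % c < t → u s = 0 := uu_U hsfU sdiff_subset hs₀K _
  have hmem : ∀ w ∈ (mset (bk c n) univ I (μ - 1)).filter (Bd c t ub),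
      u + w ∈ ExU c t ub n (2 * M - 1) j := by
    intro w hw
    rw [mem_filter, mem_mset] at hw
    rw [mem_ExU, mem_Ex]
    refine ⟨⟨?_, fun i hi => ?_⟩, ?_⟩
    · simp only [Pi.add_apply]
      rw [sum_add_distrib, husum, hw.1.1.1]
      omega
    · by_cases hiI : i ∈ I
      · have h4 := hw.1.2 i hiI
        push Not at h4
        obtain ⟨s, hs, hs'⟩ := h4
        refine ⟨s, mem_bk.1 hs, ?_⟩
        rw [Pi.add_apply]
        omega
      · refine ⟨sf i, hsf i hi, ?_⟩
        have h4 : u (sf i) ≠ 0 := uu_pos sf s₀ _ (by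
          rw [hJ, mem_sdiff, mem_range]
          exact ⟨hi, hiI⟩)
        rw [Pi.add_apply]
        omega
    · exact bd_add huK hw.2
  let ε : {w // w ∈ (mset (bk c n) univ I (μ - 1)).filter (Bd c t ub)} →
    {a // a ∈ ExU c t ub n (2 * M - 1) j} := fun w => ⟨u + w.1, hmem w.1 w.2⟩
  have hε : Function.Injective ε := fun w w' h =>
    Subtype.ext (add_left_cancel (congrArg Subtype.val h))
  have hdeg : ∀ w : {w // w ∈ (mset (bk c n) univ I (μ - 1)).filter (Bd c t ub)},
      ∑ s, w.1 s = μ - 1 := fun w => (mem_mset.1 (mem_filter.1 w.2).1).1.1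
  have key := card_le_at (LSU c t ub M n j) (.ord μ I) ε hε (Sum.elim (one c t n) fun _ => 0) (by
    intro f hf hsupp w
    rw [mem_LSA] at hf
    have hfat := hf ()
    have hF : ∀ b : Fin n → ℕ, ∑ i, b i < μ →
        ∑ w : {w // w ∈ (mset (bk c n) univ I (μ - 1)).filter (Bd c t ub)},
        f (ε w) * tcr (msk (blk c n) I (one c t n)) (u + w.1) b = 0 := by
      intro b hb
      have h4 := hfat b hb
      rw [sum_supp ε hε f (fun e => tcr (msk (blk c n) I
        fun s => (Sum.elim (one c t n) (fun _ => (0 : ℂ)) : Fin n ⊕ Fin n → ℂ) (Sum.inl s)) e.1 b)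
        hsupp] at h4
      exact h4
    have h5 := (div_fat univ (fun w => f (ε w)) (fun w => w.1) u _ (tcr_oneU hu0 huK) μ hF).1 w.1
      (by
        rw [hdeg w]
        omega)
    rw [sum_eq_single w] at h5
    · rw [tcr_same _ _ _ rfl, if_pos rfl, mul_one] at h5
      exact h5
    · intro w' _ hw'
      rw [tcr_same _ _ _ (by rw [hdeg w, hdeg w']),
        if_neg fun h => hw' (Subtype.ext h), mul_zero]
    · intro h
      exact absurd (mem_univ w) h)
  rw [Fintype.card_coe, Fintype.card_coe] at key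
  exact key

/-! ### Swapped points -/

theorem wt_le_sw (ub : ℕ → ℕ) (M c t j n : ℕ) (hM : 1 ≤ M) (hj : j < M)
    (ht : t < c) (hn : j * c + t < n) {i : ℕ} {I : Finset ℕ} (h1 : i < j) (h2 : I ⊆ Ico (i + 1) j) :
    ∃ q : Fin n ⊕ Fin n → ℂ, (∀ s : Fin n, s.1 % c < t → q (Sum.inl s) = 0 ∧ q (Sum.inr s) = 0) ∧
      finrank ℂ ((LSU c t ub M n j).V (fun _ : Unit => Kd.sw i I) fun _ => q) +
        (wU c t ub n (M - 1) I - if I = ∅ then 1 else 0) ≤ (ExU c t ub n (2 * M - 1) j).card := by
  classical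
  obtain ⟨sf, hsfU⟩ := exists_sfU (c := c) (t := t) (j := j) (n := n) ht hn
  have hsf : ∀ i < j, blk c n (sf i) = i := fun i hi => (hsfU i hi).1
  set s₀ : Fin n := ⟨j * c + t, hn⟩ with hs₀def
  have hs₀b : blk c n s₀ = j := blk_s0 ht hn
  have hs₀K : ¬ s₀.1 % c < t := mod_s0 ht
  obtain ⟨x₀, hx₀, hx₀K⟩ : ∃ x₀, blk c n x₀ = i ∧ ¬ x₀.1 % c < t := ⟨sf i, hsfU i h1⟩
  have hiI : i ∉ I := fun h => by
    have := mem_Ico.1 (h2 h)
    omega
  have hIr : I ⊆ range j := fun k hk => mem_range.2 (mem_Ico.1 (h2 hk)).2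
  have hins : insert i I ⊆ range j := insert_subset (mem_range.2 h1) hIr
  have hcardJ : (range j \ insert i I).card = j - (I.card + 1) := by
    rw [card_sdiff_of_subset hins, card_range, card_insert_of_notMem hiI]
  have hIl : I.card + 1 ≤ j := by
    have := card_le_card hins
    rwa [card_range, card_insert_of_notMem hiI] at this
  have hsx : s₀ ≠ x₀ := by
    intro h
    rw [← h, hs₀b] at hx₀
    omega
  set J : Finset ℕ := range j \ insert i I with hJ
  set u : Fin n → ℕ := uu sf J s₀ (M - 1 - J.card) with hu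
  have husum : ∑ s, u s = M - 1 := by
    rw [hu, uu_sum]
    omega
  have hu0 : ∀ s, blk c n s ∈ insert i I → u s = 0 := by
    intro s hs
    by_contra h
    rcases uu_supp h with ⟨k, hk, rfl⟩ | rfl
    · rw [hJ, mem_sdiff, mem_range] at hk
      rw [hsf k hk.1] at hs
      exact hk.2 hs
    · rw [hs₀b] at hs
      have := mem_range.1 (hins hs)
      omega
  have huK : ∀ s : Fin n, s.1 % c < t → u s = 0 := uu_U hsfU sdiff_subset hs₀K _
  -- the index set
  set W₀ : Finset (Fin n → ℕ) := (mset (bk c n) univ I (M - 1)).filter (Bd c t ub)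
    with hW₀
  set W : Finset (Fin n → ℕ) := if I = ∅ then W₀.erase (Pi.single x₀ (M - 1)) else W₀ with hW
  have hWW₀ : ∀ w ∈ W, w ∈ W₀ := by
    intro w hw
    rw [hW] at hw
    split_ifs at hw with h
    · exact mem_of_mem_erase hw
    · exact hw
  have hWB : ∀ w ∈ W, Bd c t ub w := fun w hw => (mem_filter.1 (hWW₀ w hw)).2
  have hWm : ∀ w ∈ W, w ∈ mset (bk c n) univ I (M - 1) := fun w hw => (mem_filter.1 (hWW₀ w hw)).1
  have hWsum : ∀ w ∈ W, ∑ s, w s = M - 1 := fun w hw => (mem_mset.1 (hWm w hw)).1.1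
  have hWI : ∀ w ∈ W, ∀ k ∈ I, ∃ s, blk c n s = k ∧ w s ≠ 0 := by
    intro w hw k hk
    have h4 := (mem_mset.1 (hWm w hw)).2 k hk
    push Not at h4
    obtain ⟨s, hs, hs'⟩ := h4
    exact ⟨s, mem_bk.1 hs, hs'⟩
  have hWne : ∀ w ∈ W, w ≠ Pi.single x₀ (M - 1) := by
    intro w hw h
    by_cases hI : I = ∅
    · rw [hW, if_pos hI] at hw
      exact (mem_erase.1 hw).1 h
    · obtain ⟨k, hk⟩ := nonempty_iff_ne_empty.2 hI
      obtain ⟨s, hs, hs'⟩ := hWI w hw k hk
      have h4 : s ≠ x₀ := by
        rintro rfl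
        rw [hx₀] at hs
        exact hiI (hs ▸ hk)
      rw [h, Pi.single_eq_of_ne h4] at hs'
      exact hs' rfl
  have hWcard : W.card = wU c t ub n (M - 1) I - if I = ∅ then 1 else 0 := by
    have h4 : W₀.card = wU c t ub n (M - 1) I := rfl
    rw [hW, ← h4]
    split_ifs with hI
    · refine card_erase_of_mem ?_
      rw [hW₀, mem_filter, mem_mset]
      refine ⟨⟨⟨?_, fun x _ => mem_univ x⟩, fun k hk => ?_⟩, ?_⟩
      · rw [sum_pi_single']
        simp
      · rw [hI] at hk
        exact absurd hk (notMem_empty k)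
      · refine bd_zero fun s hs => ?_
        rw [Pi.single_eq_of_ne]
        rintro rfl
        exact hx₀K hs
    · rfl
  -- the exponents
  let Q : (Fin n → ℕ) → Prop := fun w => ∃ s, blk c n s = i ∧ s ≠ x₀ ∧ w s ≠ 0
  let tt : (Fin n → ℕ) → Fin n := fun w => if Q w then s₀ else x₀
  let hh : (Fin n → ℕ) → Fin n → ℕ := fun w => w + Pi.single (tt w) 1
  have htK : ∀ w, ¬ (tt w).1 % c < t := by
    intro w
    show ¬ (if Q w then s₀ else x₀ : Fin n).1 % c < t
    split_ifs
    · exact hs₀K
    · exact hx₀K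
  have hhB : ∀ w, Bd c t ub w → Bd c t ub (hh w) := fun w hw => bd_add' (fun s hs => by
    rw [Pi.single_eq_of_ne]
    rintro rfl
    exact htK w hs) hw
  have hoff : ∀ w s, blk c n s = i → s ≠ x₀ → hh w s = w s := by
    intro w s hs hsx'
    show w s + (Pi.single (tt w) 1 : Fin n → ℕ) s = w s
    have h4 : s ≠ tt w := by
      show s ≠ if Q w then s₀ else x₀
      split_ifs
      · rintro rfl
        rw [hs₀b] at hs
        omega
      · exact hsx'
    rw [Pi.single_eq_of_ne h4, Nat.add_zero]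
  have hQ : ∀ w, Q (hh w) ↔ Q w := by
    intro w
    constructor
    · rintro ⟨s, hs, hs', h4⟩
      exact ⟨s, hs, hs', by rwa [hoff w s hs hs'] at h4⟩
    · rintro ⟨s, hs, hs', h4⟩
      exact ⟨s, hs, hs', by rwa [hoff w s hs hs']⟩
  have hhinj : ∀ w w', hh w = hh w' → w = w' := by
    intro w w' h
    have h4 : Q w ↔ Q w' := by rw [← hQ w, ← hQ w', h]
    have h5 : tt w = tt w' := by
      show (if Q w then s₀ else x₀) = if Q w' then s₀ else x₀
      by_cases h6 : Q w
      · rw [if_pos h6, if_pos (h4.1 h6)]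
      · rw [if_neg h6, if_neg fun h7 => h6 (h4.2 h7)]
    have h6 : w + Pi.single (tt w) 1 = w' + Pi.single (tt w') 1 := h
    rw [h5] at h6
    exact add_right_cancel h6
  have hhsum : ∀ w ∈ W, ∑ s, hh w s = M := by
    intro w hw
    show ∑ s, (w s + (Pi.single (tt w) 1 : Fin n → ℕ) s) = M
    rw [sum_add_distrib, hWsum w hw, sum_pi_single']
    simp
    omega
  have hmem : ∀ w ∈ W, u + hh w ∈ ExU c t ub n (2 * M - 1) j := by
    intro w hw
    rw [mem_ExU, mem_Ex]
    refine ⟨⟨?_, fun k hk => ?_⟩, ?_⟩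
    · simp only [Pi.add_apply]
      rw [sum_add_distrib, husum, hhsum w hw]
      omega
    · have hle : ∀ s, w s ≤ hh w s := fun s => Nat.le_add_right _ _
      by_cases hki : k = i
      · by_cases hQw : Q w
        · obtain ⟨s, hs, -, hs'⟩ := hQw
          refine ⟨s, by rw [hs, hki], ?_⟩
          have := hle s
          rw [Pi.add_apply]
          omega
        · refine ⟨x₀, by rw [hx₀, hki], ?_⟩
          have h4 : hh w x₀ = w x₀ + 1 := by
            show w x₀ + (Pi.single (tt w) 1 : Fin n → ℕ) x₀ = w x₀ + 1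
            have h5 : tt w = x₀ := if_neg hQw
            rw [h5, Pi.single_eq_same]
          rw [Pi.add_apply]
          omega
      · by_cases hkI : k ∈ I
        · obtain ⟨s, hs, hs'⟩ := hWI w hw k hkI
          refine ⟨s, hs, ?_⟩
          have := hle s
          rw [Pi.add_apply]
          omega
        · refine ⟨sf k, hsf k hk, ?_⟩
          have h4 : u (sf k) ≠ 0 := uu_pos sf s₀ _ (by
            rw [hJ, mem_sdiff, mem_range, mem_insert]
            exact ⟨hk, fun h => h.elim hki hkI⟩)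
          rw [Pi.add_apply]
          omega
    · exact bd_add huK (hhB w (hWB w hw))
  let ε : W → {a // a ∈ ExU c t ub n (2 * M - 1) j} := fun w => ⟨u + hh w.1, hmem w.1 w.2⟩
  have hε : Function.Injective ε := fun w w' h =>
    Subtype.ext (hhinj _ _ (add_left_cancel (congrArg Subtype.val h)))
  refine ⟨Sum.elim (one c t n) fun s => if s = x₀ then 1 else 0, fun s hs => ⟨?_, ?_⟩, ?_⟩
  · show (if s.1 % c < t then (0 : ℂ) else 1) = 0
    rw [if_pos hs]
  · show (if s = x₀ then (1 : ℂ) else 0) = 0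
    rw [if_neg]
    rintro rfl
    exact hx₀K hs
  have key := card_le_at (LSU c t ub M n j) (.sw i I) ε hε
    (Sum.elim (one c t n) fun s => if s = x₀ then 1 else 0) (by
    intro f hf hsupp
    rw [mem_LSA] at hf
    obtain ⟨hfat, hsw⟩ := hf ()
    set p : Fin n → ℂ := msk (blk c n) (insert i I) (one c t n) with hp
    have hv : (msk (blk c n) I fun s => if s = x₀ then (1 : ℂ) else 0) =
        fun s => if s = x₀ then (1 : ℂ) else 0 := by
      funext s
      show (if blk c n s ∈ I then (0 : ℂ) else if s = x₀ then 1 else 0) = if s = x₀ then 1 else 0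
      by_cases h4 : s = x₀
      · rw [h4, hx₀, if_neg hiI]
      · rw [if_neg h4, ite_self]
    have hSF : ∀ b : Fin n → ℕ, ∑ e : {a // a ∈ ExU c t ub n (2 * M - 1) j}, f e * tcr p e.1 b =
        ∑ w : W, f (ε w) * tcr p (u + hh w.1) b := fun b =>
      sum_supp ε hε f (fun e => tcr p e.1 b) hsupp
    have hF : ∀ b : Fin n → ℕ, ∑ i, b i < M → ∑ w : W, f (ε w) * tcr p (u + hh w.1) b = 0 := by
      intro b hb
      rw [← hSF]
      exact hfat b hb
    obtain ⟨hA, hBB⟩ := div_fat univ (fun w : W => f (ε w)) (fun w => hh w.1) u p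
      (tcr_oneU hu0 huK) M hF
    -- the swapped conditions
    have hS : ∀ a : Fin n → ℕ, (∀ s, blk c n s = i → a s = 0) → 1 ≤ ∑ s, a s → ∑ s, a s ≤ M →
        ∑ w : W, f (ε w) * (if ∀ s, s ≠ x₀ → hh w.1 s = a s then 1 else 0) = 0 := by
      intro a ha ha1 ha2
      have h4 := hsw a (fun s hs => ha s (mem_filter.1 hs).2) ha1 ha2
      refine Eq.trans ?_ h4
      have h5 : ∀ b ∈ bxd (Fin n) (2 * M) M,
          tcr (msk (blk c n) I fun s => if s = x₀ then (1 : ℂ) else 0) b a *
            ∑ e : {a // a ∈ ExU c t ub n (2 * M - 1) j}, f e * tcr p e.1 b =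
          ∑ w : W, f (ε w) * ((if hh w.1 = b then 1 else 0) *
            (if ∀ s, s ≠ x₀ → b s = a s then 1 else 0)) := by
        intro b hb
        have hbs : ∑ s, b s = M := by
          unfold bxd at hb
          exact (mem_filter.1 hb).2
        rw [hSF, hBB b hbs.le, hv, tcr_dir x₀ b a (ha x₀ hx₀), mul_sum]
        refine sum_congr rfl fun w _ => ?_
        rw [tcr_same p _ b (by rw [hhsum w.1 w.2, hbs])]
        ring_nf
      refine Eq.trans ?_ (sum_congr rfl h5).symm
      rw [sum_comm]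
      refine sum_congr rfl fun w _ => ?_
      rw [← mul_sum]
      congr 1
      rw [sum_eq_single (hh w.1)]
      · rw [if_pos rfl, one_mul]
      · intro b _ hb
        rw [if_neg fun h => hb h.symm, zero_mul]
      · intro h
        exfalso
        refine h ?_
        unfold bxd
        rw [mem_filter, mem_bx]
        refine ⟨fun s => ?_, hhsum w.1 w.2⟩
        have h6 := single_le_sum (f := hh w.1) (fun _ _ => Nat.zero_le _) (mem_univ s)
        rw [hhsum w.1 w.2] at h6
        omega
    -- the exponents with a pure power of `x₀` in the block `i`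
    have hN : ∀ w : W, ¬ Q w.1 → f (ε w) = 0 := by
      intro w hw
      have hw0 : ∀ s, blk c n s = i → s ≠ x₀ → w.1 s = 0 := by
        intro s hs hs'
        by_contra h
        exact hw ⟨s, hs, hs', h⟩
      have ha : ∀ s, s ≠ x₀ → Function.update w.1 x₀ 0 s = w.1 s := fun s hs =>
        Function.update_of_ne hs _ _
      have hsum : ∑ s, Function.update w.1 x₀ 0 s + w.1 x₀ = M - 1 := by
        rw [← hWsum w.1 w.2, ← add_sum_erase univ (Function.update w.1 x₀ 0) (mem_univ x₀),
          ← add_sum_erase univ w.1 (mem_univ x₀), Function.update_self, zero_add, add_comm]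
        congr 1
        exact sum_congr rfl fun s hs => ha s (ne_of_mem_erase hs)
      have h4 := hS (Function.update w.1 x₀ 0) (fun s hs => by
        by_cases hs' : s = x₀
        · rw [hs', Function.update_self]
        · rw [ha s hs']
          exact hw0 s hs hs') (by
        by_contra hcon
        have h5 : ∑ s, Function.update w.1 x₀ 0 s = 0 := by omega
        refine hWne w.1 w.2 (funext fun s => ?_)
        by_cases hs' : s = x₀
        · rw [hs', Pi.single_eq_same]
          omega
        · rw [Pi.single_eq_of_ne hs', ← ha s hs']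
          exact (sum_eq_zero_iff.1 h5) s (mem_univ s)) (by omega)
      rw [sum_eq_single w] at h4
      · rw [if_pos, mul_one] at h4
        · exact h4
        · intro s hs
          rw [ha s hs]
          show w.1 s + (Pi.single (tt w.1) 1 : Fin n → ℕ) s = w.1 s
          have h5 : tt w.1 = x₀ := if_neg hw
          rw [h5, Pi.single_eq_of_ne hs, Nat.add_zero]
      · intro w' _ hw'
        rw [if_neg, mul_zero]
        intro h5
        refine hw' (Subtype.ext ?_)
        have h6 : ¬ Q w'.1 := by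
          rintro ⟨s, hs, hs', h7⟩
          rw [← hoff w'.1 s hs hs', h5 s hs', ha s hs'] at h7
          exact h7 (hw0 s hs hs')
        have h7 : ∀ s, s ≠ x₀ → w'.1 s = w.1 s := by
          intro s hs
          have h8 := h5 s hs
          rw [ha s hs] at h8
          rw [← h8]
          show w'.1 s = w'.1 s + (Pi.single (tt w'.1) 1 : Fin n → ℕ) s
          have h9 : tt w'.1 = x₀ := if_neg h6
          rw [h9, Pi.single_eq_of_ne hs, Nat.add_zero]
        have h8 : w'.1 x₀ = w.1 x₀ := by
          have e1 := hWsum w.1 w.2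
          have e2 := hWsum w'.1 w'.2
          have e3 := add_sum_erase univ w.1 (mem_univ x₀)
          have e4 := add_sum_erase univ w'.1 (mem_univ x₀)
          have e5 : ∑ s ∈ univ.erase x₀, w'.1 s = ∑ s ∈ univ.erase x₀, w.1 s :=
            sum_congr rfl fun s hs => h7 s (ne_of_mem_erase hs)
          omega
        funext s
        by_cases hs : s = x₀
        · rw [hs, h8]
        · exact h7 s hs
      · intro h
        exact absurd (mem_univ w) h
    -- the other exponents
    have hA' : ∀ b : Fin n → ℕ, ∑ i, b i < M →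
        ∑ w : W, f (ε w) * tcr p (Pi.single s₀ 1 + w.1) b = 0 := by
      intro b hb
      rw [← hA b hb]
      refine sum_congr rfl fun w _ => ?_
      by_cases hw : Q w.1
      · have h5 : hh w.1 = w.1 + Pi.single s₀ 1 := by
          show w.1 + Pi.single (tt w.1) 1 = w.1 + Pi.single s₀ 1
          have h6 : tt w.1 = s₀ := if_pos hw
          rw [h6]
        rw [h5, add_comm]
      · rw [hN w hw, zero_mul, zero_mul]
    intro w
    have h5 := (div_fat univ (fun w : W => f (ε w)) (fun w => w.1) (Pi.single s₀ 1) p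
      (tcr_oneU (fun s hs => by
        rw [Pi.single_eq_of_ne]
        rintro rfl
        rw [hs₀b] at hs
        have := mem_range.1 (hins hs)
        omega) fun s hs => by
        rw [Pi.single_eq_of_ne]
        rintro rfl
        exact hs₀K hs) M hA').1 w.1 (by
      rw [hWsum w.1 w.2]
      omega)
    rw [sum_eq_single w] at h5
    · rw [tcr_same _ _ _ rfl, if_pos rfl, mul_one] at h5
      exact h5
    · intro w' _ hw'
      rw [tcr_same _ _ _ (by rw [hWsum w.1 w.2, hWsum w'.1 w'.2]),
        if_neg fun h => hw' (Subtype.ext h), mul_zero]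
    · intro h
      exact absurd (mem_univ w) h)
  rw [Fintype.card_coe, Fintype.card_coe, hWcard] at key
  exact key

end Sz

/-- O2 (Pool/Agent/VU/Room/Size.lean), as V8 `wt_le_at`: the exponents `v + h`, `v` without bounded
variables, `h` with the bounds. -/
theorem wt_le_atU (c t : ℕ) (u : ℕ → ℕ) (M j n : ℕ) (hM : 1 ≤ M) (hj : j < M) (ht : t < c)
    (hn : (j + 1) * c ≤ n) {k : Kd} (hk : k.Ok M j) :
    ∃ q : Fin n ⊕ Fin n → ℂ, (∀ i : Fin n, i.1 % c < t → q (Sum.inl i) = 0 ∧ q (Sum.inr i) = 0) ∧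
      finrank ℂ ((LSU c t u M n j).V (fun _ : Unit => k) fun _ => q) + wtI M (wU c t u n) k ≤
        (ExU c t u n (2 * M - 1) j).card := by
  have hn' : j * c + t < n := by
    rw [Nat.add_mul, Nat.one_mul] at hn
    omega
  rcases k with ⟨μ, I⟩ | ⟨i, I⟩
  · refine ⟨Sum.elim (Sz.one c t n) fun _ => 0, fun s hs => ⟨?_, rfl⟩,
      Sz.wt_le_ord u M c t j n hj ht hn' hk.1 hk.2.1 hk.2.2⟩
    show (if s.1 % c < t then (0 : ℂ) else 1) = 0
    rw [if_pos hs]
  · exact Sz.wt_le_sw u M c t j n hM hj ht hn' hk.1 hk.2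

end Pool.Agent.VU
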