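import Pool.Agent.VU.KDefs
import Pool.Agent.VU.Room.Dec
import Pool.Agent.VU.Room.Size
import Pool.Agent.V8.Room.Surj
import Pool.Agent.V7.ST.Equiv

/-!
# VU, ROOM: independence for bounded exponents

All points are specialised to the subspace where the coordinates at the bounded variables (the
positions `s` with `s % c < t`) vanish; there the conditions decouple, and derivatives carry the
independence from the forms without the bounded variables to all pieces.
-/

set_option autoImplicit false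
set_option linter.unusedSectionVars false

namespace Pool.Agent.VU

open Finset Module Pool.Agent.H51.TB Pool.Agent.V7 Pool.Agent.V7.ST
open Pool.Agent.V8 (pa pb phi ex0 Surj gd_of_surj)

/-! ### The positions -/

private theorem Pc_nZ_le (c t n : ℕ) (ht : t < c) : nZ c t n ≤ n := by
  have h1 := Nat.div_add_mod n c
  have h2 : (c - t) * (n / c) ≤ c * (n / c) := Nat.mul_le_mul_right _ (Nat.sub_le c t)
  unfold nZ
  omega

private theorem Pc_le_nZ {c t j n : ℕ} (ht : t < c) (hn : (j + 1) * c ≤ n) :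
    (j + 1) * (c - t) ≤ nZ c t n := by
  have h1 : j + 1 ≤ n / c := (Nat.le_div_iff_mul_le (by omega)).2 hn
  have h2 : (c - t) * (j + 1) ≤ (c - t) * (n / c) := Nat.mul_le_mul_left _ h1
  rw [Nat.mul_comm] at h2
  unfold nZ
  omega

/-- The position of the unbounded variable `z`. -/
private theorem Pc_pos_inl {c t n z : ℕ} (ht : t < c) (hz : z < nZ c t n) :
    z / (c - t) * c + z % (c - t) + t < n := by
  have hc : 0 < c - t := by omega
  have h1 := Nat.div_add_mod n c
  have h2 := Nat.div_add_mod z (c - t)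
  have h3 := Nat.mod_lt z hc
  unfold nZ at hz
  rcases Nat.lt_trichotomy (z / (c - t)) (n / c) with h4 | h4 | h4
  · have h5 : (z / (c - t) + 1) * c ≤ n / c * c := Nat.mul_le_mul_right _ h4
    have h6 : (z / (c - t) + 1) * c = z / (c - t) * c + c := by ring
    have h7 : n / c * c = c * (n / c) := Nat.mul_comm _ _
    omega
  · rw [h4] at h2 ⊢
    have h7 : n / c * c = c * (n / c) := Nat.mul_comm _ _
    omega
  · exfalso
    have h5 : (c - t) * (n / c + 1) ≤ (c - t) * (z / (c - t)) := Nat.mul_le_mul_left _ h4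
    have h6 : (c - t) * (n / c + 1) = (c - t) * (n / c) + (c - t) := by ring
    have h7 : n % c < c := Nat.mod_lt n (by omega)
    omega

/-- The position of the bounded variable `y`. -/
private theorem Pc_pos_inr {c t n y : ℕ} (ht : t < c) (hy : y < n - nZ c t n) :
    y / t * c + y % t < n := by
  rcases Nat.eq_zero_or_pos t with rfl | ht0
  · rw [Nat.div_zero, Nat.mod_zero, Nat.zero_mul, Nat.zero_add]
    exact lt_of_lt_of_le hy (Nat.sub_le _ _)
  have h1 := Nat.div_add_mod n c
  have h2 := Nat.div_add_mod y t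
  have h3 := Nat.mod_lt y ht0
  have h8 : (c - t) * (n / c) + t * (n / c) = c * (n / c) := by
    rw [← Nat.add_mul]
    congr 1
    omega
  unfold nZ at hy
  rcases Nat.lt_trichotomy (y / t) (n / c) with h4 | h4 | h4
  · have h5 : (y / t + 1) * c ≤ n / c * c := Nat.mul_le_mul_right _ h4
    have h6 : (y / t + 1) * c = y / t * c + c := by ring
    have h7 : n / c * c = c * (n / c) := Nat.mul_comm _ _
    omega
  · rw [h4] at h2 ⊢
    have h7 : n / c * c = c * (n / c) := Nat.mul_comm _ _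
    omega
  · exfalso
    have h5 : t * (n / c + 1) ≤ t * (y / t) := Nat.mul_le_mul_left _ h4
    have h6 : t * (n / c + 1) = t * (n / c) + t := by ring
    omega

/-- The map behind `sgU`. -/
private def PcF {c t : ℕ} (ht : t < c) (n : ℕ) : Fin (nZ c t n) ⊕ Fin (n - nZ c t n) → Fin n :=
  Sum.elim (fun z => ⟨z.1 / (c - t) * c + z.1 % (c - t) + t, Pc_pos_inl ht z.2⟩)
    fun y => ⟨y.1 / t * c + y.1 % t, Pc_pos_inr ht y.2⟩

private theorem Pc_mod {c q r : ℕ} (hr : r < c) : (q * c + r) % c = r := by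
  rw [Nat.mul_comm q c, Nat.mul_add_mod, Nat.mod_eq_of_lt hr]

private theorem Pc_div {c q r : ℕ} (hr : r < c) : (q * c + r) / c = q := by
  rw [Nat.mul_comm q c, Nat.mul_add_div (by omega), Nat.div_eq_of_lt hr, Nat.add_zero]

private theorem Pc_inl_mod {c t n : ℕ} (ht : t < c) (z : Fin (nZ c t n)) :
    (PcF ht n (Sum.inl z)).1 % c = z.1 % (c - t) + t := by
  have h3 := Nat.mod_lt z.1 (show 0 < c - t by omega)
  show (z.1 / (c - t) * c + z.1 % (c - t) + t) % c = _
  rw [Nat.add_assoc, Pc_mod (by omega)]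

private theorem Pc_inl_div {c t n : ℕ} (ht : t < c) (z : Fin (nZ c t n)) :
    (PcF ht n (Sum.inl z)).1 / c = z.1 / (c - t) := by
  have h3 := Nat.mod_lt z.1 (show 0 < c - t by omega)
  show (z.1 / (c - t) * c + z.1 % (c - t) + t) / c = _
  rw [Nat.add_assoc, Pc_div (by omega)]

private theorem Pc_t_pos {c t n : ℕ} (y : Fin (n - nZ c t n)) : 0 < t := by
  rcases Nat.eq_zero_or_pos t with rfl | h
  · exfalso
    have h0 : nZ c 0 n = n := by
      have h2 := Nat.div_add_mod n c
      unfold nZ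
      rw [Nat.sub_zero, Nat.sub_zero]
      exact h2
    have h1 := y.2
    omega
  · exact h

private theorem Pc_inr_mod {c t n : ℕ} (ht : t < c) (y : Fin (n - nZ c t n)) :
    (PcF ht n (Sum.inr y)).1 % c = y.1 % t := by
  have h3 := Nat.mod_lt y.1 (Pc_t_pos y)
  show (y.1 / t * c + y.1 % t) % c = _
  rw [Pc_mod (by omega)]

private theorem Pc_inr_div {c t n : ℕ} (ht : t < c) (y : Fin (n - nZ c t n)) :
    (PcF ht n (Sum.inr y)).1 / c = y.1 / t := by
  have h3 := Nat.mod_lt y.1 (Pc_t_pos y)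
  show (y.1 / t * c + y.1 % t) / c = _
  rw [Pc_div (by omega)]

private theorem Pc_inj {c t : ℕ} (ht : t < c) (n : ℕ) : Function.Injective (PcF ht n) := by
  rintro (z | y) (z' | y') h
  · have h1 := Pc_inl_mod ht z
    have h2 := Pc_inl_mod ht z'
    have h3 := Pc_inl_div ht z
    have h4 := Pc_inl_div ht z'
    rw [h] at h1 h3
    have h5 : z.1 / (c - t) = z'.1 / (c - t) := h3.symm.trans h4
    have h6 : z.1 % (c - t) = z'.1 % (c - t) := by omega
    have h7 := Nat.div_add_mod z.1 (c - t)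
    have h8 := Nat.div_add_mod z'.1 (c - t)
    rw [h5, h6] at h7
    exact congrArg Sum.inl (Fin.ext (h7.symm.trans h8))
  · exfalso
    have h1 := Pc_inl_mod ht z
    have h2 := Pc_inr_mod ht y'
    rw [h] at h1
    have h3 := Nat.mod_lt y'.1 (Pc_t_pos y')
    omega
  · exfalso
    have h1 := Pc_inr_mod ht y
    have h2 := Pc_inl_mod ht z'
    rw [h] at h1
    have h3 := Nat.mod_lt y.1 (Pc_t_pos y)
    omega
  · have h1 := Pc_inr_mod ht y
    have h2 := Pc_inr_mod ht y'
    have h3 := Pc_inr_div ht y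
    have h4 := Pc_inr_div ht y'
    rw [h] at h1 h3
    have h5 : y.1 / t = y'.1 / t := h3.symm.trans h4
    have h6 : y.1 % t = y'.1 % t := h1.symm.trans h2
    have h7 := Nat.div_add_mod y.1 t
    have h8 := Nat.div_add_mod y'.1 t
    rw [h5, h6] at h7
    exact congrArg Sum.inr (Fin.ext (h7.symm.trans h8))

/-- The unbounded variables are the first part, the bounded ones the second part. -/
private noncomputable def PcS {c t : ℕ} (ht : t < c) (n : ℕ) :
    Fin (nZ c t n) ⊕ Fin (n - nZ c t n) ≃ Fin n :=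
  Equiv.ofBijective (PcF ht n) ((Fintype.bijective_iff_injective_and_card _).2
    ⟨Pc_inj ht n, by
      rw [Fintype.card_sum, Fintype.card_fin, Fintype.card_fin, Fintype.card_fin]
      exact Nat.add_sub_cancel' (Pc_nZ_le c t n ht)⟩)

private theorem PcS_apply {c t : ℕ} (ht : t < c) (n : ℕ)
    (x : Fin (nZ c t n) ⊕ Fin (n - nZ c t n)) : PcS ht n x = PcF ht n x := rfl

/-- The positions with the coordinates `0` at the bounded variables. -/
private noncomputable def PcPhn {c t : ℕ} (ht : t < c) (n : ℕ) :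
    Fin n ⊕ Fin n → Option (Fin (nZ c t n) ⊕ Fin (nZ c t n)) :=
  fun v => phi (Sum.map (PcS ht n).symm (PcS ht n).symm v)

private theorem Pc_ex0 {c t : ℕ} (ht : t < c) (n : ℕ)
    (q : Fin (nZ c t n) ⊕ Fin (nZ c t n) → ℂ) :
    (fun s => ex0 (PcPhn ht n) q (Sum.map (PcS ht n) (PcS ht n) s)) = ex0 phi q := by
  funext s
  show (phi (Sum.map (PcS ht n).symm (PcS ht n).symm (Sum.map (PcS ht n) (PcS ht n) s))).elim 0 q =
    (phi s).elim 0 q
  congr 1
  rcases s with s | s <;> simp

private theorem Pc_ex0_of {c t : ℕ} (ht : t < c) (n : ℕ) (q : Fin n ⊕ Fin n → ℂ)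
    (hq : ∀ i : Fin n, i.1 % c < t → q (Sum.inl i) = 0 ∧ q (Sum.inr i) = 0) :
    ex0 (PcPhn ht n) (Sum.elim (fun s => q (Sum.inl (PcS ht n (Sum.inl s))))
      fun s => q (Sum.inr (PcS ht n (Sum.inl s)))) = q := by
  have hy : ∀ y, (PcS ht n (Sum.inr y)).1 % c < t := by
    intro y
    rw [PcS_apply, Pc_inr_mod ht y]
    exact Nat.mod_lt y.1 (Pc_t_pos y)
  funext v
  rcases v with v | v
  · obtain ⟨s, rfl⟩ := (PcS ht n).surjective v
    show (phi (Sum.inl ((PcS ht n).symm (PcS ht n s)))).elim 0 _ = _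
    rw [Equiv.symm_apply_apply]
    rcases s with s | s
    · rfl
    · exact ((hq _ (hy s)).1).symm
  · obtain ⟨s, rfl⟩ := (PcS ht n).surjective v
    show (phi (Sum.inr ((PcS ht n).symm (PcS ht n s)))).elim 0 _ = _
    rw [Equiv.symm_apply_apply]
    rcases s with s | s
    · rfl
    · exact ((hq _ (hy s)).2).symm

/-- The bounds on the second part. -/
private def PcG (c t : ℕ) (ht : t < c) (u : ℕ → ℕ) (n : ℕ) (b : Fin (n - nZ c t n) → ℕ) : Prop :=
  ∀ y, b y ≤ u (PcS ht n (Sum.inr y)).1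

private noncomputable instance (c t : ℕ) (ht : t < c) (u : ℕ → ℕ) (n : ℕ) :
    DecidablePred (PcG c t ht u n) := fun _ => by
  unfold PcG
  infer_instance

private theorem Pc_mem {c t : ℕ} (ht : t < c) (u : ℕ → ℕ) (n d j : ℕ) (a : Fin n → ℕ) :
    a ∈ ExU c t u n d j ↔ (fun s => a (PcS ht n s)) ∈
      EG (fun s => blk c n (PcS ht n s)) d j (PcG c t ht u n) := by
  rw [mem_ExU, mem_Ex_equiv (PcS ht n) (fun s => blk c n (PcS ht n s)) (blk c n) (fun _ => rfl)]
  unfold EG
  rw [mem_filter]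
  refine and_congr_right fun _ => ?_
  constructor
  · intro h y
    refine h _ ?_
    rw [PcS_apply, Pc_inr_mod ht y]
    exact Nat.mod_lt y.1 (Pc_t_pos y)
  · intro h s hs
    obtain ⟨x, rfl⟩ := (PcS ht n).surjective s
    rcases x with z | y
    · exfalso
      rw [PcS_apply, Pc_inl_mod ht z] at hs
      omega
    · exact h y

/-- The number of exponents and the independence of the conditions at positions with the
coordinates `0` at the bounded variables. -/
private theorem Pc_surj (c t : ℕ) (u : ℕ → ℕ) (M j n : ℕ) (hM : 1 ≤ M) (ht : t < c)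
    (hn : (j + 1) * c ≤ n) {κ : Type} (m : κ → Kd) (hm : ∀ i, (m i).Ok M j)
    (p : κ → Fin (nZ c t n) ⊕ Fin (nZ c t n) → ℂ)
    (h : Surj fun i => (LS M (blk (c - t) (nZ c t n)) j).V (fun _ : Unit => m i) fun _ => p i) :
    Surj fun i => (LSU c t u M n j).V (fun _ : Unit => m i) fun _ => ex0 (PcPhn ht n) (p i) := by
  have hc' : 0 < c - t := by omega
  have hZ := Pc_le_nZ ht hn
  have hmin : ∀ y : Fin (n - nZ c t n), min (y.1 / t) j * (c - t) < nZ c t n := by
    intro y
    refine lt_of_lt_of_le ?_ hZ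
    exact Nat.mul_lt_mul_of_pos_right (lt_of_le_of_lt (min_le_right _ _) (Nat.lt_succ_self j)) hc'
  have h1 := surj_EG (β₀ := blk (c - t) (nZ c t n)) (β := fun s => blk c n (PcS ht n s)) (j := j)
    (fun y => ⟨min (y.1 / t) j * (c - t), hmin y⟩) (fun s => by
      show (PcF ht n (Sum.inl s)).1 / c = s.1 / (c - t)
      exact Pc_inl_div ht s) (fun y i hi => by
      show (PcF ht n (Sum.inr y)).1 / c = i ↔ (min (y.1 / t) j * (c - t)) / (c - t) = i
      rw [Pc_inr_div ht y, Nat.mul_div_cancel _ hc']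
      omega) M hM (PcG c t ht u n) m hm p h
  intro f
  obtain ⟨g, hg⟩ := h1 fun i a => f i ((exE (PcS ht n) (Pc_mem ht u n (2 * M - 1) j)).symm a)
  refine ⟨fun a => g (exE (PcS ht n) (Pc_mem ht u n (2 * M - 1) j) a), fun i => ?_⟩
  have h2 := hg i
  rw [mem_LSA] at h2 ⊢
  intro _
  have h3 := satK_equiv (PcS ht n) (Pc_mem ht u n (2 * M - 1) j) M
    (fun s => blk c n (PcS ht n s)) (blk c n)
    (fun _ => rfl) (m i) (ex0 (PcPhn ht n) (p i))
    (g - fun a => f i ((exE (PcS ht n) (Pc_mem ht u n (2 * M - 1) j)).symm a))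
  rw [Pc_ex0] at h3
  have h4 := h3.2 (h2 ())
  have h5 : (fun a : {a // a ∈ ExU c t u n (2 * M - 1) j} =>
      (g - fun a => f i ((exE (PcS ht n) (Pc_mem ht u n (2 * M - 1) j)).symm a))
        (exE (PcS ht n) (Pc_mem ht u n (2 * M - 1) j) a)) =
      (fun a => g (exE (PcS ht n) (Pc_mem ht u n (2 * M - 1) j) a)) - f i := by
    funext a
    rw [Pi.sub_apply, Pi.sub_apply, Equiv.symm_apply_apply]
  rw [h5] at h4
  exact h4

/-- O3 (Pool/Agent/VU/Room/Pc.lean), as V8 `gM_LSB_le`. -/
theorem gM_LSU_le (c t : ℕ) (u : ℕ → ℕ) (M j n : ℕ) (hM : 1 ≤ M) (hj : j < M) (ht : t < c)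
    (hn : (j + 1) * c ≤ n) (s : Multiset Kd) (hs : ∀ τ ∈ s, τ.Ok M j)
    (h : (gM (LS M (blk (c - t) (nZ c t n)) j) s : ℤ) ≤ vd M (c - t) j (nZ c t n) s) :
    (gM (LSU c t u M n j) s : ℤ) ≤ vdI M (wU c t u n) j s := by
  have hc' : 0 < c - t := by omega
  have hZ := Pc_le_nZ ht hn
  have hZ' : j * (c - t) < nZ c t n := by
    rw [Nat.add_mul, Nat.one_mul] at hZ
    omega
  obtain ⟨m, hm, hg⟩ := exists_conf (LS M (blk (c - t) (nZ c t n)) j) s
  have hmok : ∀ i, (m i).Ok M j := fun i => hs _ (by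
    rw [← hm]
    exact Multiset.mem_map_of_mem m (mem_univ_val i))
  have hsum : ∀ w : Kd → ℕ, ∑ i, w (m i) = (s.map w).sum := by
    intro w
    have h1 := congrArg (fun t : Multiset Kd => (t.map w).sum) hm
    simp only [Multiset.map_map] at h1
    exact h1
  have key := gd_of_surj (LS M (blk (c - t) (nZ c t n)) j) (LSU c t u M n j)
    (PcPhn ht n) m (wt M (c - t) (nZ c t n)) (wtI M (wU c t u n))
    (fun i => size_blk hM hc' hZ' (hmok i)) (by
      rw [hg, hsum, Fintype.card_coe, card_Ex_blk hc' hZ'.le]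
      unfold vd at h
      omega) (fun i => by
      obtain ⟨q, hq, h1⟩ := wt_le_atU c t u M j n hM hj ht hn (hmok i)
      refine ⟨Sum.elim (fun s => q (Sum.inl (PcS ht n (Sum.inl s))))
        fun s => q (Sum.inr (PcS ht n (Sum.inl s))), ?_⟩
      rw [Pc_ex0_of ht n q hq, Fintype.card_coe]
      exact h1) fun p hp => Pc_surj c t u M j n hM ht hn m hmok p hp
  rw [gd_eq_gM, hm, hsum, Fintype.card_coe, card_ExU] at key
  unfold vdI
  omega

end Pool.Agent.VU
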