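import Pool.Agent.VU.AL.Chain
import Pool.Agent.VU.AL.N5
import Pool.Agent.VU.Room.Pc
import Pool.Agent.V7.AL.Chain

/-!
# VU, block ROOM, module Alpha: independence on all levels, uniformly in the bounds

`OJU M (c + t) t j`: the class for blocks of size `c + t` is below the configuration of the chain for
blocks of size `c` (`cls_le_cfgT`), which is independent in the variables without bounds (`chainT`);
fewer points are independent too, and so are all of them with the bounded variables (`gM_LSU_le`).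
-/

set_option autoImplicit false

namespace Pool.Agent.VU

open Finset Module Pool.Agent.H51.TB Pool.Agent.V7 Pool.Agent.V7.ST Topology

private theorem alpha_mem_cfgT {T M c j l ν : ℕ} {k : Kd} (h : k ∈ cfgT T M c j l ν) :
    k.Ok M l := by
  unfold cfgT at h
  rw [Multiset.mem_sum] at h
  obtain ⟨k', hk', h⟩ := h
  rw [Multiset.eq_of_mem_replicate h]
  exact mem_kds.1 hk'

/-- One level. -/
private theorem alpha_oneU (M j : ℕ) (hM : 2 ≤ M) (hj : j < M) : ∃ L : ℕ, 1 ≤ L ∧ ∀ t : ℕ,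
    ∃ c₀ : ℕ, ∀ c, c₀ ≤ c → L ∣ c → OJU M (c + t) t j := by
  obtain ⟨L, hL, h⟩ := chainT M j hM hj
  have hC : 1 ≤ (2 * M - 1).choose M := Nat.choose_pos (by omega)
  refine ⟨L * (2 * M - 1).choose M, Nat.mul_pos hL hC, fun t => ?_⟩
  obtain ⟨c₁, h1⟩ := h (2 * t * M + 3) (by omega)
  obtain ⟨c₂, h2⟩ := cls_le_cfgT M j t (2 * t * M + 3) hM hj le_rfl
  refine ⟨c₁ + c₂ + 1, fun c hc hdiv => ?_⟩
  have hc1 : 1 ≤ c := by omega
  obtain ⟨K, hK⟩ := h1 c (by omega) ((Dvd.intro _ rfl).trans hdiv)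
  obtain ⟨e, he, n₀, hcl⟩ := h2 c (by omega) ((Dvd.intro_left _ rfl).trans hdiv)
  refine ⟨e, he, n₀ + (c + t) * (K + 2 * M), fun n hn u hu s hs htop => ?_⟩
  have h3 := hcl n (by omega) s hs htop
  set ν := n / (c + t) with hν
  have hνK : K + 2 * M ≤ ν := by
    rw [hν, Nat.le_div_iff_mul_le (by omega), mul_comm]
    omega
  have hmod : n % (c + t) < c + t := Nat.mod_lt _ (by omega)
  have hnZ : nZ (c + t) t n = c * ν + (n % (c + t) - t) := by
    unfold nZ
    rw [Nat.add_sub_cancel]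
  have hr : n % (c + t) - t < c := by omega
  have h4 := hK (n % (c + t) - t) hr ν (by omega)
  rw [← hnZ] at h4
  set q := cfgT (2 * t * M + 3) M c j j ν with hq
  have hok : ∀ τ ∈ s, τ.Ok M j := by
    intro τ hτ
    exact mem_kds.1 (hs.ok τ (Multiset.count_pos.2 hτ).ne')
  have hlr : (j + 1) * c ≤ nZ (c + t) t n := by
    rw [hnZ]
    have h5 : (j + 1) * c ≤ ν * c := Nat.mul_le_mul_right c (by omega)
    have h6 : ν * c = c * ν := mul_comm _ _
    omega
  have hlr' : (j + 1) * (c + t) ≤ n := by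
    have h5 : (j + 1) * (c + t) ≤ ν * (c + t) := Nat.mul_le_mul_right _ (by omega)
    exact h5.trans (Nat.div_mul_le_self n (c + t))
  refine gM_LSU_le (c + t) t u M j n (by omega) hj (by omega) hlr' s hok ?_
  rw [Nat.add_sub_cancel]
  have h5 := gM_le_wt (M := M) (by omega) hc1 hlr s (q - s) fun k hk =>
    alpha_mem_cfgT (Multiset.mem_of_le (Multiset.sub_le_self q s) hk)
  have e2 : q - s + s = q := tsub_add_cancel_of_le h3
  rw [e2] at h5
  have h6 : (q.map (wt M c (nZ (c + t) t n))).sum =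
      ((q - s).map (wt M c (nZ (c + t) t n))).sum + (s.map (wt M c (nZ (c + t) t n))).sum := by
    rw [← Multiset.sum_add, ← Multiset.map_add, e2]
  unfold vd at h4 ⊢
  have h7 : (gM (LS M (blk c (nZ (c + t) t n)) j) s : ℤ) ≤
      gM (LS M (blk c (nZ (c + t) t n)) j) q +
        (((q - s).map (wt M c (nZ (c + t) t n))).sum : ℕ) := by exact_mod_cast h5
  rw [h6, Nat.cast_add] at h4
  linarith

/-- O4 -/
theorem alphaU (M : ℕ) (hM : 2 ≤ M) : ∃ L : ℕ, 1 ≤ L ∧ ∀ t : ℕ, ∃ c₀ : ℕ, ∀ c, c₀ ≤ c → L ∣ c →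
    ∀ j < M, OJU M (c + t) t j := by
  have key : ∀ N, N ≤ M → ∃ L : ℕ, 1 ≤ L ∧ ∀ t : ℕ, ∃ c₀ : ℕ, ∀ c, c₀ ≤ c → L ∣ c →
      ∀ j < N, OJU M (c + t) t j := by
    intro N
    induction N with
    | zero => exact fun _ => ⟨1, le_rfl, fun _ => ⟨0, fun c _ _ j hj => absurd hj (Nat.not_lt_zero j)⟩⟩
    | succ N ih =>
      intro hN
      obtain ⟨L₁, h1, h2⟩ := ih (by omega)
      obtain ⟨L₂, h3, h4⟩ := alpha_oneU M N hM (by omega)
      refine ⟨L₁ * L₂, Nat.mul_pos h1 h3, fun t => ?_⟩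
      obtain ⟨c₁, h2⟩ := h2 t
      obtain ⟨c₂, h4⟩ := h4 t
      refine ⟨max c₁ c₂, fun c hc hdiv j hj => ?_⟩
      rcases Nat.lt_succ_iff_lt_or_eq.1 hj with h5 | h5
      · exact h2 c ((le_max_left _ _).trans hc) ((Dvd.intro _ rfl).trans hdiv) j h5
      · rw [h5]
        exact h4 c ((le_max_right _ _).trans hc) ((Dvd.intro_left _ rfl).trans hdiv)
  exact key M le_rfl

end Pool.Agent.VU
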