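import Pool.Agent.VU.Defs
import Pool.Agent.V8.Room.Der

/-!
# VU, ROOM: derivatives in the blocks

Variables `ν₀ ⊕ η`; to every variable `x : η` belongs a variable `ζ x : ν₀`.  Positions with the
coordinates on `η` equal to `0`: the conditions decouple into the pieces `b : η → ℕ`.  The piece `b` of
a form is a derivative of order `b x` with respect to the variables `ζ x`.
-/

set_option autoImplicit false
set_option linter.unusedSectionVars false

namespace Pool.Agent.VU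

open Finset MvPolynomial Pool.Agent.H51.TB Pool.Agent.H54.V7 Pool.Agent.V7
open Pool.Agent.V8 (pa pb)
open Pool.Agent.H18.Ex (tcr)

section

variable {ν₀ η : Type} [Fintype ν₀] [DecidableEq ν₀] [Fintype η] [DecidableEq η]

/-- The exponent `∏ ζ(x) ^ b x`. -/
def psh (ζ : η → ν₀) (b : η → ℕ) : ν₀ → ℕ := fun s => ∑ x, if ζ x = s then b x else 0

theorem sum_psh (ζ : η → ν₀) (b : η → ℕ) : ∑ s, psh ζ b s = ∑ x, b x := by
  unfold psh
  rw [sum_comm]
  refine sum_congr rfl fun x _ => ?_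
  rw [sum_ite_eq univ (ζ x) fun _ => b x, if_pos (mem_univ _)]

theorem le_psh (ζ : η → ν₀) (b : η → ℕ) (x : η) : b x ≤ psh ζ b (ζ x) := by
  unfold psh
  have h1 := single_le_sum (f := fun y => if ζ y = ζ x then b y else 0)
    (fun _ _ => Nat.zero_le _) (mem_univ x)
  have h2 : (if ζ x = ζ x then b x else 0) = b x := if_pos rfl
  exact h2 ▸ h1

theorem psh_eq_zero {ζ : η → ν₀} {b : η → ℕ} {s : ν₀} (h : ∀ x, ζ x = s → b x = 0) :
    psh ζ b s = 0 := by
  unfold psh
  refine sum_eq_zero fun x _ => ?_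
  split_ifs with hx
  · exact h x hx
  · rfl

theorem exists_of_psh {ζ : η → ν₀} {b : η → ℕ} {s : ν₀} (h : psh ζ b s ≠ 0) :
    ∃ x, ζ x = s ∧ b x ≠ 0 := by
  by_contra h1
  refine h (psh_eq_zero fun x hx => ?_)
  by_contra h2
  exact h1 ⟨x, hx, h2⟩

theorem psh_add_sub {c h : ν₀ → ℕ} (hc : ∀ s, h s ≤ c s) : c - h + h = c := by
  funext s
  rw [Pi.add_apply, Pi.sub_apply]
  have := hc s
  omega

theorem psh_sub_add (e h : ν₀ → ℕ) : e + h - h = e := by
  funext s
  rw [Pi.sub_apply, Pi.add_apply, Nat.add_sub_cancel]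

/-- The product of the binomial coefficients of `e s + h s` and `h s`. -/
def mch (e h : ν₀ → ℕ) : ℕ := ∏ s, (e s + h s).choose (h s)

theorem mch_ne_zero (e h : ν₀ → ℕ) : (mch e h : ℂ) ≠ 0 := by
  rw [Nat.cast_ne_zero]
  unfold mch
  exact (prod_pos fun s _ => Nat.choose_pos (Nat.le_add_left _ _)).ne'

/-! ### Taylor coefficients -/

theorem tcr_psh (q : ν₀ → ℂ) (e b h : ν₀ → ℕ) :
    (mch e h : ℂ) * tcr q e b = (mch b h : ℂ) * tcr q (e + h) (b + h) := by
  unfold tcr mch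
  rw [Nat.cast_prod, Nat.cast_prod, ← prod_mul_distrib, ← prod_mul_distrib]
  refine prod_congr rfl fun s _ => ?_
  rw [Pi.add_apply, Pi.add_apply, Nat.add_sub_add_right]
  have h4 : (e s + h s).choose (h s) * (e s).choose (b s) =
      (b s + h s).choose (h s) * (e s + h s).choose (b s + h s) := by
    by_cases hb : b s ≤ e s
    · have h5 := Nat.choose_mul (n := e s + h s) (k := b s + h s) (s := h s) (by omega)
      rw [Nat.add_sub_cancel, Nat.add_sub_cancel] at h5
      rw [← h5, Nat.mul_comm]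
    · rw [Nat.choose_eq_zero_of_lt (Nat.lt_of_not_le hb), Nat.choose_eq_zero_of_lt
        (show e s + h s < b s + h s by omega)]
      simp
  have h5 : ((e s + h s).choose (h s) : ℂ) * ((e s).choose (b s) : ℂ) =
      ((b s + h s).choose (h s) : ℂ) * ((e s + h s).choose (b s + h s) : ℂ) := by
    exact_mod_cast congrArg (fun n : ℕ => (n : ℂ)) h4
  rw [← mul_assoc, ← mul_assoc, h5]

theorem psh_bij (X : Finset (ν₀ ⊕ η → ℕ)) (X₀ : Finset (ν₀ → ℕ)) (b₀ : η → ℕ) (h : ν₀ → ℕ)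
    (hX : ∀ e : ν₀ → ℕ, Sum.elim e b₀ ∈ X ↔ e + h ∈ X₀) (φ : (ν₀ → ℕ) → ℂ)
    (hφ : ∀ (c : ν₀ → ℕ) (s : ν₀), c s < h s → φ c = 0) :
    ∑ a ∈ X, (if pb a = b₀ then φ (pa a + h) else 0) = ∑ c ∈ X₀, φ c := by
  rw [← sum_filter]
  have h1 : ∑ c ∈ X₀, φ c = ∑ c ∈ X₀.filter (fun c => ∀ s, h s ≤ c s), φ c := by
    rw [sum_filter]
    refine sum_congr rfl fun c _ => ?_
    split_ifs with h2
    · rfl
    · obtain ⟨s, hs⟩ := not_forall.1 h2
      exact hφ c s (Nat.lt_of_not_le hs)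
  rw [h1]
  have hel : ∀ a : ν₀ ⊕ η → ℕ, Sum.elim (pa a) (pb a) = a := by
    intro a
    funext s
    rcases s with s | s <;> rfl
  refine sum_nbij' (fun a => pa a + h) (fun c => Sum.elim (c - h) b₀) ?_ ?_ ?_ ?_ ?_
  · intro a ha
    rw [mem_filter] at ha ⊢
    refine ⟨(hX _).1 ?_, fun s => ?_⟩
    · rw [← ha.2, hel]
      exact ha.1
    · rw [Pi.add_apply]
      omega
  · intro c hc
    rw [mem_filter] at hc ⊢
    refine ⟨(hX _).2 ?_, rfl⟩
    rw [psh_add_sub hc.2]
    exact hc.1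
  · intro a ha
    rw [mem_filter] at ha
    funext s
    rcases s with s | s
    · show (pa a + h - h) s = a (Sum.inl s)
      rw [psh_sub_add]
    · show b₀ s = a (Sum.inr s)
      rw [← ha.2]
  · intro c hc
    rw [mem_filter] at hc
    exact psh_add_sub hc.2
  · intro a ha
    rfl

end

end Pool.Agent.VU
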